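import Mathlib
import Pool.Agent.W_MP_a7fafd_co.Cuts

namespace Pool.Agent.Results.MP_a7fafd_co.AllSixAvoidable

/-- The word `w` encounters the pattern `p` in the abelian sense: `w` has a factor
`u 0 ++ u 1 ++ ... ++ u (m-1)`, `m` the length of `p`, where every `u i` is nonempty and
`u i`, `u j` are permutations of each other whenever the `i`-th and the `j`-th variables of `p`
coincide. -/
def Encounters {V A : Type} (p : List V) (w : List A) : Prop :=
  ∃ u : Fin p.length → List A,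
    (∀ i, u i ≠ []) ∧ (∀ i j, p.get i = p.get j → (u i).Perm (u j)) ∧
      (List.ofFn u).flatten <:+: w

/-- The pattern `p` is avoidable in the abelian sense: over some finite alphabet there are
infinitely many finite words which do not encounter `p` in the abelian sense. -/
def AbelianAvoidable {V : Type} (p : List V) : Prop :=
  ∃ k : ℕ, {w : List (Fin k) | ¬ Encounters p w}.Infinite

/-- The six patterns `01020312, 01020321, 01021303, 01023031, 010203013, 010213020`. -/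
def sixPatterns : List (List (Fin 4)) :=
  [[0, 1, 0, 2, 0, 3, 1, 2], [0, 1, 0, 2, 0, 3, 2, 1], [0, 1, 0, 2, 1, 3, 0, 3],
   [0, 1, 0, 2, 3, 0, 3, 1], [0, 1, 0, 2, 0, 3, 0, 1, 3], [0, 1, 0, 2, 1, 3, 0, 2, 0]]

open Pool.Agent.W_MP_a7fafd_co in
lemma avoidable_of (p : List (Fin 4)) (h : ∀ n, ¬ Encounters p (seg 0 n)) :
    AbelianAvoidable p := by
  refine ⟨_, Set.infinite_of_injective_forall_mem (f := fun n : ℕ => seg 0 n) ?_ h⟩
  intro a b hab
  have := congrArg List.length hab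
  simpa [seg_length] using this

open Pool.Agent.W_MP_a7fafd_co in
/-- All six patterns are avoidable in the abelian sense. -/
theorem result : ∀ p ∈ sixPatterns, AbelianAvoidable p := by
  intro p hp
  simp only [sixPatterns, List.mem_cons, List.not_mem_nil, or_false] at hp
  rcases hp with rfl | rfl | rfl | rfl | rfl | rfl
  · apply avoidable_of
    rintro n ⟨u, hne, hperm, hfac⟩
    obtain ⟨x, hx, he⟩ := cuts u hne n hfac
    exact formA (x 5) (x 0) (x 1) (x 2) (x 3) (x 4) (x 5) (x 6) (x 7) (x 8) le_rfl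
      (hx 0 (by simp)) (hx 1 (by simp)) (hx 3 (by simp))
      (he 0 2 (hperm _ _ rfl)) (he 0 4 (hperm _ _ rfl)) (he 1 6 (hperm _ _ rfl))
      (he 3 7 (hperm _ _ rfl))
  · apply avoidable_of
    rintro n ⟨u, hne, hperm, hfac⟩
    obtain ⟨x, hx, he⟩ := cuts u hne n hfac
    exact formB (x 5) (x 0) (x 1) (x 2) (x 3) (x 4) (x 5) (x 6) (x 7) (x 8) le_rfl
      (hx 0 (by simp)) (hx 1 (by simp)) (hx 3 (by simp))
      (he 0 2 (hperm _ _ rfl)) (he 0 4 (hperm _ _ rfl)) (he 1 7 (hperm _ _ rfl))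
      (he 3 6 (hperm _ _ rfl))
  · apply avoidable_of
    rintro n ⟨u, hne, hperm, hfac⟩
    obtain ⟨x, hx, he⟩ := cuts u hne n hfac
    exact formC (x 8) (x 0) (x 1) (x 2) (x 3) (x 4) (x 5) (x 6) (x 7) (x 8) le_rfl
      (hx 0 (by simp)) (hx 1 (by simp)) (hx 5 (by simp))
      (he 0 2 (hperm _ _ rfl)) (he 0 6 (hperm _ _ rfl)) (he 1 4 (hperm _ _ rfl))
      (he 5 7 (hperm _ _ rfl))
  · apply avoidable_of
    rintro n ⟨u, hne, hperm, hfac⟩
    obtain ⟨x, hx, he⟩ := cuts u hne n hfac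
    exact formD (x 8) (x 0) (x 1) (x 2) (x 3) (x 4) (x 5) (x 6) (x 7) (x 8) le_rfl
      (hx 0 (by simp)) (hx 1 (by simp)) (hx 4 (by simp))
      (he 0 2 (hperm _ _ rfl)) (he 0 5 (hperm _ _ rfl)) (he 1 7 (hperm _ _ rfl))
      (he 4 6 (hperm _ _ rfl))
  · apply avoidable_of
    rintro n ⟨u, hne, hperm, hfac⟩
    obtain ⟨x, hx, he⟩ := cuts u hne n hfac
    exact formE (x 9) (x 0) (x 1) (x 2) (x 3) (x 4) (x 5) (x 6) (x 7) (x 8) (x 9) le_rfl
      (hx 0 (by simp)) (hx 1 (by simp)) (hx 5 (by simp))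
      (he 0 2 (hperm _ _ rfl)) (he 0 4 (hperm _ _ rfl)) (he 0 6 (hperm _ _ rfl))
      (he 1 7 (hperm _ _ rfl)) (he 5 8 (hperm _ _ rfl))
  · apply avoidable_of
    rintro n ⟨u, hne, hperm, hfac⟩
    obtain ⟨x, hx, he⟩ := cuts u hne n hfac
    exact formE (x 5) (x 6) (x 7) (x 8) (x 9) (x 0) (x 1) (x 2) (x 3) (x 4) (x 5) le_rfl
      (hx 6 (by simp)) (hx 7 (by simp)) (hx 1 (by simp))
      (he 6 8 (hperm _ _ rfl)) (he 6 0 (hperm _ _ rfl)) (he 6 2 (hperm _ _ rfl))
      (he 7 3 (hperm _ _ rfl)) (he 1 4 (hperm _ _ rfl))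

end Pool.Agent.Results.MP_a7fafd_co.AllSixAvoidable
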